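import Mathlib
import Pool.Agent.Helper70.IdemDefs
import Pool.Agent.Helper74.Idem.ChamberDefs
import Pool.Agent.Helper74.Idem.BuildingDefs
import Pool.Agent.Helper74.Idem.ChainDefs
import Pool.Agent.Helper74.Idem.Chamber
import Pool.Agent.Helper74.Idem.Building
import Pool.Agent.Helper74.Idem.Chains

set_option autoImplicit false

/-!
A local-to-global criterion for property (P): it is decided by pairs of relations. Families with
two-element classes, finite buildings, and the maximal chains of finite lattices.
-/

namespace Pool.Agent.Results.MP_51c8ca_al.LocalToGlobal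

open Pool.Agent.Helper70.IdemDefs
open Pool.Agent.Helper74.Idem.ChamberDefs
open Pool.Agent.Helper74.Idem.BuildingDefs
open Pool.Agent.Helper74.Idem.ChainDefs

universe u v w

/-- (A) Let `F` be a family of equivalence relations on a set with at least two elements, without
singleton classes, such that each class `C` of the join of two different members is a grid, or
the two members restricted to `C` have property (P), and such that a member which commutes with
all the others has only classes with at most two elements. Then `F` has property (P) if and only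
if its join is the total relation, it has at least two members, and it does not split.
(B) The same criterion if all classes have exactly two elements and different members meet in
the equality relation.
(C) The adjacency relations of a finite building with at least two chambers.
(D) The maximal chains of length `n ≥ 3` of a finite lattice, in particular (E) of a finite
geometric lattice. -/
theorem result :
    (∀ (E : Type u) [Nontrivial E] (F : Set (Setoid E)),
      (∀ θ ∈ F, ∀ x, ∃ y, y ≠ x ∧ θ x y) →
      (∀ θ ∈ F, ∀ φ ∈ F, θ ≠ φ → ∀ x, GridAt θ φ x ∨ RigidAt θ φ x) →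
      (∀ θ ∈ F, (∀ φ ∈ F, φ ≠ θ → Commuting θ φ) →
        ∀ x y z, θ x y → θ x z → x = y ∨ x = z ∨ y = z) →
      (PropertyP F ↔ sSup F = ⊤ ∧ F.Nontrivial ∧ ¬ Splits F)) ∧
    (∀ (E : Type u) [Finite E] [Nontrivial E] (F : Set (Setoid E)),
      (∀ θ ∈ F, ∀ x, ∃! y, y ≠ x ∧ θ x y) →
      (∀ θ ∈ F, ∀ φ ∈ F, θ ≠ φ → θ ⊓ φ = ⊥) →
      (PropertyP F ↔ sSup F = ⊤ ∧ F.Nontrivial ∧ ¬ Splits F)) ∧
    (∀ (B : Type v) (W : Type w) (C : Type u) [Group W] (M : CoxeterMatrix B)
      (cs : CoxeterSystem M W) (δ : C → C → W) [Finite C] [Nontrivial C]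
      (h : IsBuilding cs δ),
      PropertyP (Set.range (adjacency h)) ↔
        (Set.range cs.simple).Nontrivial ∧ IrreducibleSystem cs) ∧
    (∀ (L : Type u) [Lattice L] [BoundedOrder L] [Finite L] (n : ℕ), 3 ≤ n →
      Nonempty (MaxChain L n) →
      (∀ a b c : L, a ⋖ b → b ⋖ c → ∃ b', b' ≠ b ∧ a ⋖ b' ∧ b' ⋖ c) →
      (PropertyP (chainFamily L n) ↔ sSup (chainFamily L n) = ⊤)) ∧
    (∀ (L : Type u) [Lattice L] [BoundedOrder L] [Finite L] [IsUpperModularLattice L]
      [IsAtomistic L] (n : ℕ), 3 ≤ n → Nonempty (MaxChain L n) →
      PropertyP (chainFamily L n)) := by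
  refine ⟨?_, ?_, ?_, ?_, ?_⟩
  · intro E _ F h1 h2 h3
    exact Pool.Agent.Helper74.Idem.Chamber.main F h1 h2 h3
  · intro E _ _ F h1 h2
    exact Pool.Agent.Helper74.Idem.Chamber.main_thin F h1 h2
  · intro B W C _ M cs δ _ _ h
    exact Pool.Agent.Helper74.Idem.Building.building_main h
  · intro L _ _ _ n hn hne hth
    exact Pool.Agent.Helper74.Idem.Chains.chain_main hth hn
  · intro L _ _ _ _ _ n hn hne
    exact Pool.Agent.Helper74.Idem.Chains.geometric_main hn

end Pool.Agent.Results.MP_51c8ca_al.LocalToGlobal
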